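import Mathlib

set_option autoImplicit false

namespace Pool.Agent.H919Z.FS

open Equiv

variable {n : ℕ}

/-- lollipop graph: clique on positions below k, then a path -/
def lolli (n k : ℕ) : SimpleGraph (Fin n) where
  Adj a b := a ≠ b ∧ ((a.val < k ∧ b.val < k) ∨ a.val + 1 = b.val ∨ b.val + 1 = a.val)
  symm := ⟨fun a b h => ⟨h.1.symm, by
    rcases h.2 with h | h | h
    · exact Or.inl ⟨h.2, h.1⟩
    · exact Or.inr (Or.inr h)
    · exact Or.inr (Or.inl h)⟩⟩
  loopless := ⟨fun a h => h.1 rfl⟩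

def Step (k : ℕ) (Y : SimpleGraph (Fin n)) (m : ℕ) (σ τ : Perm (Fin n)) : Prop :=
  ∃ a b : Fin n, a.val < m ∧ b.val < m ∧ (lolli n k).Adj a b ∧ Y.Adj (σ a) (σ b) ∧
    τ = σ * swap a b

inductive R (k : ℕ) (Y : SimpleGraph (Fin n)) (m : ℕ) : Perm (Fin n) → Perm (Fin n) → ℕ → Prop
  | refl (σ : Perm (Fin n)) : R k Y m σ σ 0
  | cons {σ ρ τ : Perm (Fin n)} {l : ℕ} : Step k Y m σ ρ → R k Y m ρ τ l → R k Y m σ τ (l + 1)

variable {k : ℕ} {Y : SimpleGraph (Fin n)}

lemma Step.keep {m : ℕ} {σ τ : Perm (Fin n)} (h : Step k Y m σ τ) (i : Fin n) (hi : m ≤ i.val) :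
    τ i = σ i := by
  obtain ⟨a, b, ha, hb, -, -, rfl⟩ := h
  have h1 : i ≠ a := by rintro rfl; omega
  have h2 : i ≠ b := by rintro rfl; omega
  simp [swap_apply_of_ne_of_ne h1 h2]

lemma R.keep {m : ℕ} {σ τ : Perm (Fin n)} {l : ℕ} (h : R k Y m σ τ l) (i : Fin n)
    (hi : m ≤ i.val) : τ i = σ i := by
  induction h with
  | refl σ => rfl
  | cons hs _ ih => rw [ih, hs.keep i hi]

lemma Step.split {p q : Fin n} (hpq : p.val + 1 = q.val) (hk : k ≤ q.val) {σ τ : Perm (Fin n)}
    (h : Step k Y (q.val + 1) σ τ) :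
    Step k Y q.val σ τ ∨ (Y.Adj (σ p) (σ q) ∧ τ = σ * swap p q) := by
  obtain ⟨a, b, ha, hb, hX, hY, rfl⟩ := h
  by_cases h1 : a.val < q.val ∧ b.val < q.val
  · exact Or.inl ⟨a, b, h1.1, h1.2, hX, hY, rfl⟩
  · right
    have hne : a.val ≠ b.val := fun h => hX.1 (Fin.ext h)
    rcases hX.2 with h | h | h
    · omega
    · have hb' : b = q := Fin.ext (by omega)
      have ha' : a = p := Fin.ext (by omega)
      subst hb' ha'
      exact ⟨hY, rfl⟩
    · have hb' : b = p := Fin.ext (by omega)
      have ha' : a = q := Fin.ext (by omega)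
      subst hb' ha'
      exact ⟨hY.symm, by rw [swap_comm]⟩

lemma R.split {p q : Fin n} (hpq : p.val + 1 = q.val) (hk : k ≤ q.val) {σ τ : Perm (Fin n)}
    {l : ℕ} (h : R k Y (q.val + 1) σ τ l) :
    R k Y q.val σ τ l ∨ ∃ ρ l1 l2, R k Y q.val σ ρ l1 ∧ Y.Adj (ρ p) (ρ q) ∧
      R k Y (q.val + 1) (ρ * swap p q) τ l2 ∧ l = l1 + 1 + l2 := by
  induction h with
  | refl σ => exact Or.inl (R.refl σ)
  | @cons σ ρ τ l hs hr ih =>
    rcases hs.split hpq hk with h1 | ⟨h1, rfl⟩
    · rcases ih with h2 | ⟨ρ', l1, l2, h2, h3, h4, rfl⟩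
      · exact Or.inl (R.cons h1 h2)
      · exact Or.inr ⟨ρ', l1 + 1, l2, R.cons h1 h2, h3, h4, by omega⟩
    · exact Or.inr ⟨σ, 0, l, R.refl σ, h1, hr, by omega⟩

/-- going around the token on position s costs at least D moves -/
def Around (k : ℕ) (Y : SimpleGraph (Fin n)) (q s : Fin n) (D : ℕ) : Prop :=
  ∀ (σ τ : Perm (Fin n)) (l : ℕ), R k Y s.val σ τ l → σ q ≠ τ q → Y.Adj (σ s) (σ q) →
    Y.Adj (σ s) (τ q) → D ≤ l

lemma osc0 {p q : Fin n} (hpq : p.val + 1 = q.val) (hk : k ≤ q.val) {D : ℕ}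
    (hP : Around k Y p q D) :
    ∀ (l : ℕ) (ρ τ : Perm (Fin n)), Y.Adj (ρ p) (ρ q) → R k Y (q.val + 1) ρ τ l → l < D →
      τ q = ρ p ∨ τ q = ρ q := by
  intro l
  induction l using Nat.strong_induction_on with
  | _ l ih =>
    intro ρ τ hadj hr hl
    rcases hr.split hpq hk with h1 | ⟨ρ', l1, l2, h1, h2, h3, rfl⟩
    · exact Or.inr (h1.keep q le_rfl)
    · have hq : ρ' q = ρ q := h1.keep q le_rfl
      by_cases hc : ρ p = ρ' p
      · have := ih l2 (by omega) (ρ' * swap p q) τ (by simpa using h2.symm) h3 (by omega)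
        simp only [Perm.coe_mul, Function.comp_apply, swap_apply_left, swap_apply_right] at this
        rw [hq, ← hc] at this
        tauto
      · have := hP ρ ρ' l1 h1 hc hadj.symm (by rw [← hq]; exact h2.symm)
        omega

lemma osc1 {p q : Fin n} (hpq : p.val + 1 = q.val) (hk : k ≤ q.val) {D : ℕ}
    (hP : Around k Y p q D) :
    ∀ (l : ℕ) (ρ τ : Perm (Fin n)), Y.Adj (ρ p) (ρ q) → R k Y (q.val + 1) ρ τ l → l < 2 * D →
      τ q = ρ p ∨ τ q = ρ q ∨ Y.Adj (ρ p) (τ q) ∨ Y.Adj (ρ q) (τ q) := by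
  intro l
  induction l using Nat.strong_induction_on with
  | _ l ih =>
    intro ρ τ hadj hr hl
    rcases hr.split hpq hk with h1 | ⟨ρ', l1, l2, h1, h2, h3, rfl⟩
    · exact Or.inr (Or.inl (h1.keep q le_rfl))
    · have hq : ρ' q = ρ q := h1.keep q le_rfl
      by_cases hc : ρ p = ρ' p
      · have := ih l2 (by omega) (ρ' * swap p q) τ (by simpa using h2.symm) h3 (by omega)
        simp only [Perm.coe_mul, Function.comp_apply, swap_apply_left, swap_apply_right] at this
        rw [hq, ← hc] at this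
        tauto
      · have hD := hP ρ ρ' l1 h1 hc hadj.symm (by rw [← hq]; exact h2.symm)
        have := osc0 hpq hk hP l2 (ρ' * swap p q) τ (by simpa using h2.symm) h3 (by omega)
        simp only [Perm.coe_mul, Function.comp_apply, swap_apply_left, swap_apply_right] at this
        rcases this with h | h
        · exact Or.inr (Or.inl (h.trans hq))
        · refine Or.inr (Or.inr (Or.inr ?_))
          rw [h, ← hq]; exact h2.symm

lemma around_step (htri : ∀ u v w, Y.Adj u v → Y.Adj u w → ¬ Y.Adj v w)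
    (hc4 : ∀ v w x c, v ≠ w → Y.Adj x v → Y.Adj x w → Y.Adj c v → Y.Adj c w → c = x)
    {p q s : Fin n} (hpq : p.val + 1 = q.val) (hqs : q.val + 1 = s.val) (hk : k ≤ q.val) {D : ℕ}
    (hP : Around k Y p q D) : Around k Y q s (2 * D) := by
  intro σ τ l hr hne hv hw
  by_contra hl
  push Not at hl
  rw [← hqs] at hr
  rcases hr.split hpq hk with h1 | ⟨ρ, l1, l2, h1, h2, h3, rfl⟩
  · exact hne (h1.keep q le_rfl).symm
  · have hq : ρ q = σ q := h1.keep q le_rfl
    have hs : ρ s = σ s := h1.keep s (by omega)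
    have hcx : ρ p ≠ σ s := by
      rw [← hs]
      intro h
      have := ρ.injective h
      have := congrArg Fin.val this
      omega
    have := osc1 hpq hk hP l2 (ρ * swap p q) τ (by simpa using h2.symm) h3 (by omega)
    simp only [Perm.coe_mul, Function.comp_apply, swap_apply_left, swap_apply_right] at this
    rw [hq] at this h2
    rcases this with h | h | h | h
    · exact hne h.symm
    · exact htri _ _ _ hv hw (by rw [h]; exact h2.symm)
    · exact htri _ _ _ hv hw h
    · exact hcx (hc4 _ _ _ _ hne hv hw h2 h)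

lemma around_pow (htri : ∀ u v w, Y.Adj u v → Y.Adj u w → ¬ Y.Adj v w)
    (hc4 : ∀ v w x c, v ≠ w → Y.Adj x v → Y.Adj x w → Y.Adj c v → Y.Adj c w → c = x) :
    ∀ (j : ℕ) (q s : Fin n), q.val + 1 = k + j → q.val + 1 = s.val → Around k Y q s (2 ^ j) := by
  intro j
  induction j with
  | zero =>
    intro q s _ _ σ τ l hr hne _ _
    cases hr with
    | refl => exact absurd rfl hne
    | cons _ _ => simp
  | succ j ih =>
    intro q s h1 h2
    by_cases hq0 : q.val = 0
    · -- then k = 0 and j = 0: no moves are possible below s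
      intro σ τ l hr hne _ _
      exfalso
      cases hr with
      | refl => exact hne rfl
      | cons hs _ =>
        obtain ⟨a, b, ha, hb, hX, -, -⟩ := hs
        exact hX.1 (Fin.ext (by omega))
    · have hp : q.val - 1 < n := by omega
      have := around_step (k := k) htri hc4 (p := ⟨q.val - 1, hp⟩) (q := q) (s := s)
        (by simp only; omega) h2 (by omega) (ih ⟨q.val - 1, hp⟩ q (by simp only; omega)
          (by simp only; omega))
      rwa [pow_succ, mul_comm]

lemma far (htri : ∀ u v w, Y.Adj u v → Y.Adj u w → ¬ Y.Adj v w)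
    (hc4 : ∀ v w x c, v ≠ w → Y.Adj x v → Y.Adj x w → Y.Adj c v → Y.Adj c w → c = x)
    {j : ℕ} {p q : Fin n} (hpq : p.val + 1 = q.val) (hq : q.val = k + j)
    {σ τ : Perm (Fin n)} {l : ℕ} (hr : R k Y (q.val + 1) σ τ l) (hne : σ q ≠ τ q)
    (hna : ¬ Y.Adj (σ q) (τ q)) : 2 ^ j ≤ l := by
  by_contra hl
  push Not at hl
  have hP := around_pow (k := k) htri hc4 j p q (by omega) hpq
  rcases hr.split hpq (by omega) with h1 | ⟨ρ, l1, l2, h1, h2, h3, rfl⟩
  · exact hne (h1.keep q le_rfl).symm
  · have hq : ρ q = σ q := h1.keep q le_rfl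
    have := osc0 hpq (by omega) hP l2 (ρ * swap p q) τ (by simpa using h2.symm) h3 (by omega)
    simp only [Perm.coe_mul, Function.comp_apply, swap_apply_left, swap_apply_right] at this
    rw [hq] at this h2
    rcases this with h | h
    · exact hne h.symm
    · exact hna (by rw [h]; exact h2.symm)

/-- the friends-and-strangers graph -/
abbrev FSG (X Y : SimpleGraph (Fin n)) : SimpleGraph (Perm (Fin n)) :=
  SimpleGraph.fromRel (fun σ τ : Perm (Fin n) =>
    ∃ a b : Fin n, X.Adj a b ∧ Y.Adj (σ a) (σ b) ∧ τ = σ * swap a b)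

lemma step_of_adj {σ τ : Perm (Fin n)} (h : (FSG (lolli n k) Y).Adj σ τ) : Step k Y n σ τ := by
  rw [SimpleGraph.fromRel_adj] at h
  rcases h.2 with ⟨a, b, hX, hY, rfl⟩ | ⟨a, b, hX, hY, rfl⟩
  · exact ⟨a, b, a.2, b.2, hX, hY, rfl⟩
  · refine ⟨a, b, a.2, b.2, hX, by simpa using hY.symm, ?_⟩
    rw [mul_assoc, swap_mul_self, mul_one]

lemma R_of_walk {σ τ : Perm (Fin n)} (w : (FSG (lolli n k) Y).Walk σ τ) :
    R k Y n σ τ w.length := by
  induction w with
  | nil => exact R.refl _
  | cons h _ ih => exact R.cons (step_of_adj h) ih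

lemma reach_swap {X : SimpleGraph (Fin n)} (σ : Perm (Fin n)) {a b : Fin n} (hX : X.Adj a b)
    (hY : Y.Adj (σ a) (σ b)) : (FSG X Y).Reachable σ (σ * swap a b) := by
  apply SimpleGraph.Adj.reachable
  rw [SimpleGraph.fromRel_adj]
  refine ⟨?_, Or.inl ⟨a, b, hX, hY, rfl⟩⟩
  intro h
  have := congrArg (fun f : Perm (Fin n) => f a) h
  simp only [Perm.coe_mul, Function.comp_apply, swap_apply_left] at this
  exact hY.ne this

/-- adjacency in Y avoiding S -/
def Av (Y : SimpleGraph (Fin n)) (S : Finset (Fin n)) (u v : Fin n) : Prop :=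
  Y.Adj u v ∧ u ∉ S ∧ v ∉ S

lemma reach_edge {S : Finset (Fin n)} {u v : Fin n} (h : Av Y S u v) (σ : Perm (Fin n))
    (hσ : ∀ i : Fin n, k ≤ i.val → σ i ∈ S) :
    (FSG (lolli n k) Y).Reachable σ (swap u v * σ) := by
  have hu : (σ.symm u).val < k := by
    by_contra hc
    have := hσ (σ.symm u) (by omega)
    rw [apply_symm_apply] at this
    exact h.2.1 this
  have hv : (σ.symm v).val < k := by
    by_contra hc
    have := hσ (σ.symm v) (by omega)
    rw [apply_symm_apply] at this
    exact h.2.2 this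
  have hne : σ.symm u ≠ σ.symm v := fun hc => h.1.ne (σ.symm.injective hc)
  have := reach_swap (X := lolli n k) (Y := Y) σ (a := σ.symm u) (b := σ.symm v)
    ⟨hne, Or.inl ⟨hu, hv⟩⟩ (by simpa using h.1)
  rwa [mul_swap_eq_swap_mul, apply_symm_apply, apply_symm_apply] at this

lemma inv_swap {S : Finset (Fin n)} {u v : Fin n} (hu : u ∉ S) (hv : v ∉ S) {σ : Perm (Fin n)}
    (hσ : ∀ i : Fin n, k ≤ i.val → σ i ∈ S) :
    ∀ i : Fin n, k ≤ i.val → (swap u v * σ) i ∈ S := by
  intro i hi
  have h := hσ i hi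
  have h1 : σ i ≠ u := by rintro rfl; exact hu h
  have h2 : σ i ≠ v := by rintro rfl; exact hv h
  simpa [swap_apply_of_ne_of_ne h1 h2] using h

lemma reach_transp {S : Finset (Fin n)} {u w : Fin n} (hu : u ∉ S)
    (h : Relation.ReflTransGen (Av Y S) u w) :
    ∀ σ : Perm (Fin n), (∀ i : Fin n, k ≤ i.val → σ i ∈ S) →
      (FSG (lolli n k) Y).Reachable σ (swap u w * σ) := by
  induction h with
  | refl => intro σ _; rw [swap_self]; exact SimpleGraph.Reachable.refl _
  | @tail v w _ hvw ih =>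
    intro σ hσ
    by_cases h1 : u = w
    · subst h1; rw [swap_self]; exact SimpleGraph.Reachable.refl _
    by_cases h2 : u = v
    · subst h2; exact reach_edge hvw σ hσ
    have e : swap u w * σ = swap v w * (swap u v * (swap v w * σ)) := by
      rw [← mul_assoc, ← mul_assoc, swap_mul_swap_mul_swap h2 h1, swap_comm]
    rw [e]
    have a1 := reach_edge hvw σ hσ
    have i1 := inv_swap hvw.2.1 hvw.2.2 hσ
    have a2 := ih _ i1
    have i2 := inv_swap hu hvw.2.1 i1
    have a3 := reach_edge hvw _ i2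
    exact (a1.trans a2).trans a3

/-- tokens on positions at least m -/
def tl (σ : Perm (Fin n)) (m : ℕ) : Finset (Fin n) :=
  (Finset.univ.filter (fun i : Fin n => m ≤ i.val)).image σ

lemma card_tl (σ : Perm (Fin n)) (m : ℕ) : (tl σ m).card ≤ n - m := by
  refine Finset.card_image_le.trans ?_
  have : (Finset.univ.filter (fun i : Fin n => m ≤ i.val)).card ≤ (Finset.Ico m n).card := by
    apply Finset.card_le_card_of_injOn (fun i => i.val)
    · intro i hi
      simp only [Finset.coe_filter, Finset.mem_univ, true_and, Set.mem_ofPred_eq] at hi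
      simp [hi]
    · intro a _ b _ h
      exact Fin.ext h
  simpa using this

lemma mem_tl {σ : Perm (Fin n)} {m : ℕ} {i : Fin n} : σ i ∈ tl σ m ↔ m ≤ i.val := by
  simp [tl]

lemma tl_congr {σ τ : Perm (Fin n)} {m : ℕ} (h : ∀ i : Fin n, m ≤ i.val → σ i = τ i) :
    tl σ m = tl τ m := by
  unfold tl
  apply Finset.image_congr
  intro i hi
  simp only [Finset.coe_filter, Finset.mem_univ, true_and, Set.mem_ofPred_eq] at hi
  exact h i hi

lemma reach_base
    (hconn : ∀ S : Finset (Fin n), S.card ≤ n - k → ∀ u v, u ∉ S → v ∉ S →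
      Relation.ReflTransGen (Av Y S) u v) (τ : Perm (Fin n)) :
    ∀ (c : ℕ) (σ : Perm (Fin n)), (Finset.univ.filter (fun i => σ i ≠ τ i)).card = c →
      (∀ i : Fin n, k ≤ i.val → σ i = τ i) → (FSG (lolli n k) Y).Reachable σ τ := by
  intro c
  induction c using Nat.strong_induction_on with
  | _ c ih =>
    intro σ hc hag
    by_cases h : σ = τ
    · subst h; rfl
    obtain ⟨a, ha⟩ : ∃ a, σ a ≠ τ a := by
      by_contra hc
      push Not at hc
      exact h (Equiv.ext hc)
    have hak : a.val < k := by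
      by_contra hc
      exact ha (hag a (by omega))
    have hu : σ a ∉ tl σ k := by rw [mem_tl]; omega
    have hw : τ a ∉ tl σ k := by rw [tl_congr hag, mem_tl]; omega
    have h1 := reach_transp (k := k) hu (hconn _ (card_tl σ k) _ _ hu hw) σ
      (fun i hi => mem_tl.2 hi)
    refine h1.trans (ih _ ?_ _ rfl ?_)
    · rw [← hc]
      apply Finset.card_lt_card
      rw [Finset.ssubset_iff_of_subset]
      · refine ⟨a, Finset.mem_filter.2 ⟨Finset.mem_univ _, ha⟩, fun hm => ?_⟩
        exact (Finset.mem_filter.1 hm).2 (by simp)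
      · intro i hi
        have hi := (Finset.mem_filter.1 hi).2
        refine Finset.mem_filter.2 ⟨Finset.mem_univ _, ?_⟩
        intro hst
        apply hi
        rw [Perm.coe_mul, Function.comp_apply]
        have h1 : σ i ≠ σ a := by
          intro h; have := σ.injective h; subst this; exact ha hst
        have h2 : σ i ≠ τ a := by
          intro h; rw [hst] at h; have := τ.injective h; subst this; exact ha hst
        rw [swap_apply_of_ne_of_ne h1 h2, hst]
    · intro i hi
      have hm : σ i ∈ tl σ k := mem_tl.2 hi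
      have h1 : σ i ≠ σ a := by intro h; rw [h] at hm; exact hu hm
      have h2 : σ i ≠ τ a := by intro h; rw [h] at hm; exact hw hm
      simp only [Perm.coe_mul, Function.comp_apply]
      rw [swap_apply_of_ne_of_ne h1 h2, hag i hi]

lemma reach_all (hk : 1 ≤ k)
    (hconn : ∀ S : Finset (Fin n), S.card ≤ n - k → ∀ u v, u ∉ S → v ∉ S →
      Relation.ReflTransGen (Av Y S) u v) :
    ∀ (j : ℕ) (σ τ : Perm (Fin n)), (∀ i : Fin n, k + j ≤ i.val → σ i = τ i) →
      (FSG (lolli n k) Y).Reachable σ τ := by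
  intro j
  induction j with
  | zero => intro σ τ h; exact reach_base hconn τ _ σ rfl h
  | succ j ih =>
    intro σ τ hag
    by_cases hn : k + j < n
    swap
    · exact ih σ τ (fun i hi => by have := i.2; omega)
    let q : Fin n := ⟨k + j, hn⟩
    let p : Fin n := ⟨k + j - 1, by omega⟩
    have hqv : q.val = k + j := rfl
    have hpv : p.val = k + j - 1 := rfl
    have hu : σ q ∉ tl σ (k + (j + 1)) := by rw [mem_tl]; omega
    have hw : τ q ∉ tl σ (k + (j + 1)) := by rw [tl_congr hag, mem_tl]; omega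
    have hpath := hconn _ ((card_tl σ (k + (j + 1))).trans (by omega)) _ _ hu hw
    have key : ∀ w, Relation.ReflTransGen (Av Y (tl σ (k + (j + 1)))) (σ q) w →
        ∃ ρ : Perm (Fin n), (FSG (lolli n k) Y).Reachable σ ρ ∧ ρ q = w ∧
          ∀ i : Fin n, k + (j + 1) ≤ i.val → σ i = ρ i := by
      intro w hw
      induction hw with
      | refl => exact ⟨σ, SimpleGraph.Reachable.refl _, rfl, fun _ _ => rfl⟩
      | @tail v w _ hvw ih2 =>
        obtain ⟨ρ, h1, h2, h3⟩ := ih2
        have ha1 : (ρ.symm w).val < k + (j + 1) := by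
          by_contra hc
          have : ρ (ρ.symm w) ∈ tl ρ (k + (j + 1)) := mem_tl.2 (by omega)
          rw [apply_symm_apply, ← tl_congr h3] at this
          exact hvw.2.2 this
        have ha2 : (ρ.symm w).val ≠ k + j := by
          intro hc
          have : ρ.symm w = q := Fin.ext hc
          have h4 : w = ρ q := by rw [← this, apply_symm_apply]
          exact hvw.1.ne (h2.symm.trans h4.symm)
        have hag' : ∀ i : Fin n, k + j ≤ i.val → ρ i = (ρ * swap (ρ.symm w) p) i := by
          intro i hi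
          have e1 : i ≠ ρ.symm w := by rintro rfl; omega
          have e2 : i ≠ p := by rintro rfl; omega
          simp [swap_apply_of_ne_of_ne e1 e2]
        have r1 := ih _ _ hag'
        have hp' : (ρ * swap (ρ.symm w) p) p = w := by simp
        have hq' : (ρ * swap (ρ.symm w) p) q = v := by rw [← hag' q (by omega), h2]
        have hpq : p ≠ q := by intro h; have := congrArg Fin.val h; omega
        have r2 := reach_swap (X := lolli n k) (Y := Y) (ρ * swap (ρ.symm w) p) (a := p) (b := q)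
          ⟨hpq, Or.inr (Or.inl (by omega))⟩ (by rw [hp', hq']; exact hvw.1.symm)
        refine ⟨_, (h1.trans r1).trans r2, ?_, ?_⟩
        · rw [Perm.coe_mul, Function.comp_apply, swap_apply_right, hp']
        · intro i hi
          have e1 : i ≠ p := by rintro rfl; omega
          have e2 : i ≠ q := by rintro rfl; omega
          rw [Perm.coe_mul, Function.comp_apply, swap_apply_of_ne_of_ne e1 e2,
            ← hag' i (by omega), h3 i hi]
    obtain ⟨ρ, h1, h2, h3⟩ := key _ hpath
    refine h1.trans (ih ρ τ ?_)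
    intro i hi
    by_cases hiq : i = q
    · rw [hiq, h2]
    · have : i.val ≠ k + j := fun h => hiq (Fin.ext h)
      rw [← h3 i (by omega), hag i (by omega)]

theorem main {j : ℕ} (hk : 1 ≤ k) (hn : n = k + j + 1)
    (htri : ∀ u v w, Y.Adj u v → Y.Adj u w → ¬ Y.Adj v w)
    (hc4 : ∀ v w x c, v ≠ w → Y.Adj x v → Y.Adj x w → Y.Adj c v → Y.Adj c w → c = x)
    (hconn : ∀ S : Finset (Fin n), S.card ≤ j + 1 → ∀ u v, u ∉ S → v ∉ S →
      Relation.ReflTransGen (Av Y S) u v)
    (v w : Fin n) (hvw : v ≠ w) (hna : ¬ Y.Adj v w) :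
    (FSG (lolli n k) Y).Connected ∧ 2 ^ j ≤ (FSG (lolli n k) Y).diam := by
  have hC : (FSG (lolli n k) Y).Connected := by
    refine ⟨fun σ τ => reach_all hk (fun S hS => hconn S (by omega)) n σ τ ?_⟩
    intro i hi
    have := i.2
    omega
  refine ⟨hC, ?_⟩
  let q : Fin n := ⟨k + j, by omega⟩
  let p : Fin n := ⟨k + j - 1, by omega⟩
  obtain ⟨wk, hwk⟩ := hC.exists_walk_length_eq_dist (swap q v) (swap q w)
  have hr := R_of_walk wk
  have hqn : q.val + 1 = n := by simp only [q]; omega
  have hr' : R k Y (q.val + 1) (swap q v) (swap q w) wk.length := by rw [hqn]; exact hr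
  have h1 := far (j := j) htri hc4 (p := p) (q := q) (by simp only [p, q]; omega) rfl hr'
    (by simpa using hvw) (by simpa using hna)
  refine h1.trans ?_
  rw [hwk]
  exact SimpleGraph.dist_le_diam (SimpleGraph.connected_iff_ediam_ne_top.1 hC)

end Pool.Agent.H919Z.FS
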