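import Mathlib
import Pool.Agent.H919Z.FSLow

set_option autoImplicit false

namespace Pool.Agent.H919Z.FS

open Equiv

/-- points (left) and non-vertical lines (right) of the affine plane -/
abbrev PL (F : Type) := (F × F) ⊕ (F × F)

variable {F : Type} [Field F]

def inc : PL F → PL F → Prop
  | Sum.inl P, Sum.inr L => P.2 = L.1 * P.1 + L.2
  | Sum.inr L, Sum.inl P => P.2 = L.1 * P.1 + L.2
  | _, _ => False

lemma inc_symm {u v : PL F} (h : inc u v) : inc v u := by
  cases u <;> cases v <;> simp_all [inc]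

lemma inc_irrefl (u : PL F) : ¬ inc u u := by
  cases u <;> simp [inc]

lemma inc_tri (u v w : PL F) (h1 : inc u v) (h2 : inc u w) : ¬ inc v w := by
  cases u <;> cases v <;> cases w <;> simp_all [inc]

lemma two_pts {P Q L M : F × F} (h1 : P.2 = L.1 * P.1 + L.2) (h2 : Q.2 = L.1 * Q.1 + L.2)
    (h3 : P.2 = M.1 * P.1 + M.2) (h4 : Q.2 = M.1 * Q.1 + M.2) : P = Q ∨ L = M := by
  by_cases h : P.1 = Q.1
  · left
    exact Prod.ext h (by rw [h1, h2, h])
  · right
    have h5 : (L.1 - M.1) * (P.1 - Q.1) = 0 := by linear_combination h3 - h1 - h4 + h2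
    have h6 : L.1 = M.1 := by
      rcases mul_eq_zero.1 h5 with h7 | h7
      · exact sub_eq_zero.1 h7
      · exact absurd (sub_eq_zero.1 h7) h
    exact Prod.ext h6 (by rw [h6] at h1; linear_combination h3 - h1)

lemma inc_c4 (v w x c : PL F) (hvw : v ≠ w) (h1 : inc x v) (h2 : inc x w) (h3 : inc c v)
    (h4 : inc c w) : c = x := by
  rcases v with v | v <;> rcases w with w | w <;> rcases x with x | x <;> rcases c with c | c <;>
    simp only [inc] at h1 h2 h3 h4
  · rcases two_pts h1 h2 h3 h4 with h | h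
    · exact absurd (congrArg Sum.inl h) hvw
    · rw [h]
  · rcases two_pts h1 h3 h2 h4 with h | h
    · rw [h]
    · exact absurd (congrArg Sum.inr h) hvw

lemma exists_avoid [Fintype F] [DecidableEq F] {V : Type} [DecidableEq V] (S : Finset V)
    (hS : 3 * S.card < Fintype.card F) (f g h : F → V) (hf : Function.Injective f)
    (hg : Function.Injective g) (hh : Function.Injective h) :
    ∃ a, f a ∉ S ∧ g a ∉ S ∧ h a ∉ S := by
  by_contra hc
  have key : ∀ φ : F → V, Function.Injective φ →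
      (Finset.univ.filter (fun a => φ a ∈ S)).card ≤ S.card := by
    intro φ hφ
    apply Finset.card_le_card_of_injOn φ
    · intro a ha
      exact (Finset.mem_filter.1 ha).2
    · exact hφ.injOn
  have hsub : (Finset.univ : Finset F) ⊆ (Finset.univ.filter (fun a => f a ∈ S)) ∪
      (Finset.univ.filter (fun a => g a ∈ S)) ∪ (Finset.univ.filter (fun a => h a ∈ S)) := by
    intro a _
    simp only [Finset.mem_union, Finset.mem_filter, Finset.mem_univ, true_and]
    by_contra h2
    exact hc ⟨a, by tauto⟩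
  have h1 := Finset.card_le_card hsub
  have h2 := Finset.card_union_le ((Finset.univ.filter (fun a => f a ∈ S)) ∪
      (Finset.univ.filter (fun a => g a ∈ S))) (Finset.univ.filter (fun a => h a ∈ S))
  have h3 := Finset.card_union_le (Finset.univ.filter (fun a => f a ∈ S))
      (Finset.univ.filter (fun a => g a ∈ S))
  have := key f hf
  have := key g hg
  have := key h hh
  rw [Finset.card_univ] at h1
  omega

def AvI (S : Finset (PL F)) (u v : PL F) : Prop := inc u v ∧ u ∉ S ∧ v ∉ S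

lemma conn_pts [Fintype F] [DecidableEq F] (S : Finset (PL F))
    (hS : 3 * S.card < Fintype.card F) (P Q : F × F) (hP : Sum.inl P ∉ S) (hQ : Sum.inl Q ∉ S) :
    Relation.ReflTransGen (AvI S) (Sum.inl P) (Sum.inl Q) := by
  by_cases hPQ : P = Q
  · subst hPQ; exact Relation.ReflTransGen.refl
  let f : F → PL F := fun a => Sum.inr (a, P.2 - a * P.1)
  let g : F → PL F := fun a => Sum.inr (a + 1, Q.2 - (a + 1) * Q.1)
  let xx : F → F := fun a => (P.2 - a * P.1) - (Q.2 - (a + 1) * Q.1)
  let h : F → PL F := fun a => Sum.inl (xx a, a * xx a + (P.2 - a * P.1))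
  have hf : Function.Injective f := by
    intro a b hab
    simp only [f, Sum.inr.injEq, Prod.mk.injEq] at hab
    exact hab.1
  have hg : Function.Injective g := by
    intro a b hab
    simp only [g, Sum.inr.injEq, Prod.mk.injEq] at hab
    exact add_right_cancel hab.1
  have hh : Function.Injective h := by
    intro a b hab
    simp only [h, xx, Sum.inl.injEq, Prod.mk.injEq] at hab
    obtain ⟨h1, h2⟩ := hab
    by_contra hne
    have hab : a - b ≠ 0 := sub_ne_zero.2 hne
    have e1 : (a - b) * (Q.1 - P.1) = 0 := by linear_combination h1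
    have e2 : Q.1 = P.1 := sub_eq_zero.1 ((mul_eq_zero.1 e1).resolve_left hab)
    rw [e2] at h2
    have e3 : (a - b) * (P.2 - Q.2) = 0 := by linear_combination h2
    have e4 : P.2 = Q.2 := sub_eq_zero.1 ((mul_eq_zero.1 e3).resolve_left hab)
    exact hPQ (Prod.ext e2.symm e4)
  obtain ⟨a, h1, h2, h3⟩ := exists_avoid S hS f g h hf hg hh
  have s1 : AvI S (Sum.inl P) (f a) := ⟨by simp [f, inc], hP, h1⟩
  have s2 : AvI S (f a) (h a) := ⟨by simp [f, h, inc], h1, h3⟩
  have s3 : AvI S (h a) (g a) := ⟨by simp only [g, h, xx, inc]; ring, h3, h2⟩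
  have s4 : AvI S (g a) (Sum.inl Q) := ⟨by simp [g, inc], h2, hQ⟩
  exact (((Relation.ReflTransGen.single s1).tail s2).tail s3).tail s4

lemma conn_to_pt [Fintype F] [DecidableEq F] (S : Finset (PL F))
    (hS : 3 * S.card < Fintype.card F) (u : PL F) (hu : u ∉ S) :
    ∃ P : F × F, Sum.inl P ∉ S ∧ Relation.ReflTransGen (AvI S) u (Sum.inl P) ∧
      Relation.ReflTransGen (AvI S) (Sum.inl P) u := by
  rcases u with P | L
  · exact ⟨P, hu, Relation.ReflTransGen.refl, Relation.ReflTransGen.refl⟩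
  · let f : F → PL F := fun x => Sum.inl (x, L.1 * x + L.2)
    have hf : Function.Injective f := by
      intro a b hab
      simp only [f, Sum.inl.injEq, Prod.mk.injEq] at hab
      exact hab.1
    obtain ⟨a, h1, -, -⟩ := exists_avoid S hS f f f hf hf hf
    exact ⟨(a, L.1 * a + L.2), h1, Relation.ReflTransGen.single ⟨by simp [inc], hu, h1⟩,
      Relation.ReflTransGen.single ⟨by simp [inc], h1, hu⟩⟩

lemma conn_all [Fintype F] [DecidableEq F] (S : Finset (PL F))
    (hS : 3 * S.card < Fintype.card F) (u v : PL F) (hu : u ∉ S) (hv : v ∉ S) :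
    Relation.ReflTransGen (AvI S) u v := by
  obtain ⟨P, h1, h2, -⟩ := conn_to_pt S hS u hu
  obtain ⟨Q, h3, -, h4⟩ := conn_to_pt S hS v hv
  exact (h2.trans (conn_pts S hS P Q h1 h3)).trans h4

/-- the incidence graph transported to Fin n -/
def incG {n : ℕ} (e : Fin n ≃ PL F) : SimpleGraph (Fin n) where
  Adj u v := inc (e u) (e v)
  symm := ⟨fun _ _ h => inc_symm h⟩
  loopless := ⟨fun u => inc_irrefl (e u)⟩

theorem exists_example (j : ℕ) : ∃ (n : ℕ) (X Y : SimpleGraph (Fin n)),
    n ≤ 72 * (j + 1) ^ 2 ∧ (FSG X Y).Connected ∧ 2 ^ j ≤ (FSG X Y).diam := by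
  classical
  obtain ⟨p, hp, h1, h2⟩ := Nat.exists_prime_lt_and_le_two_mul (3 * (j + 1)) (by omega)
  have : Fact p.Prime := ⟨hp⟩
  have hcard : Fintype.card (PL (ZMod p)) = p * p + p * p := by
    simp [PL, ZMod.card]
  let e : Fin (p * p + p * p) ≃ PL (ZMod p) := (Fintype.equivFinOfCardEq hcard).symm
  have hpp : p ≤ p * p := Nat.le_mul_self p
  refine ⟨p * p + p * p, lolli _ (p * p + p * p - (j + 1)), incG e, by nlinarith, ?_⟩
  refine main (j := j) (by omega) (by omega) (fun u v w => inc_tri _ _ _) ?_ ?_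
    (e.symm (Sum.inl (0, 0))) (e.symm (Sum.inl (0, 1))) ?_ ?_
  · intro v w x c hvw h1 h2 h3 h4
    exact e.injective (inc_c4 _ _ _ _ (fun h => hvw (e.injective h)) h1 h2 h3 h4)
  · intro S hS u v hu hv
    have hS' : 3 * (S.map e.toEmbedding).card < Fintype.card (ZMod p) := by
      rw [Finset.card_map, ZMod.card]; omega
    have hm : ∀ x : PL (ZMod p), x ∈ S.map e.toEmbedding ↔ e.symm x ∈ S := by
      intro x; simp
    have := conn_all (S.map e.toEmbedding) hS' (e u) (e v) (by simpa using hu) (by simpa using hv)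
    have h3 := Relation.ReflTransGen.lift (r := AvI (S.map e.toEmbedding)) (p := Av (incG e) S)
      e.symm (fun a b hab => ⟨by simpa [incG] using hab.1, by rw [← hm]; exact hab.2.1,
        by rw [← hm]; exact hab.2.2⟩) _ _ this
    simpa [Function.onFun] using h3
  · intro h
    have := e.symm.injective h
    simp at this
  · simp [incG, inc]

lemma growth (C : ℕ) : ∃ j : ℕ, C * (72 * (j + 1) ^ 2 + 1) ^ C < 2 ^ j := by
  have h := tendsto_pow_const_div_const_pow_of_one_lt (2 * C) (r := 2) (by norm_num)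
  have hpos : (0 : ℝ) < 1 / (2 * C * 73 ^ C + 1) := by positivity
  obtain ⟨N, hN⟩ := (h.eventually (gt_mem_nhds hpos)).exists_forall_of_atTop
  refine ⟨N, ?_⟩
  have h1 := hN (N + 1) (by omega)
  rw [div_lt_div_iff₀ (by positivity) (by positivity)] at h1
  have h2 : (N + 1) ^ (2 * C) * (2 * C * 73 ^ C + 1) < 1 * 2 ^ (N + 1) := by exact_mod_cast h1
  have h3 : (72 * (N + 1) ^ 2 + 1) ^ C ≤ 73 ^ C * (N + 1) ^ (2 * C) := by
    rw [pow_mul, ← mul_pow]
    apply Nat.pow_le_pow_left
    have : 1 ≤ (N + 1) ^ 2 := Nat.one_le_pow _ _ (by omega)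
    omega
  have h4 : C * (72 * (N + 1) ^ 2 + 1) ^ C ≤ C * (73 ^ C * (N + 1) ^ (2 * C)) :=
    Nat.mul_le_mul_left _ h3
  rw [pow_succ] at h2
  nlinarith [Nat.zero_le ((N + 1) ^ (2 * C))]

theorem not_poly : ¬ (∃ C : ℕ, ∀ n : ℕ, ∀ X Y : SimpleGraph (Fin n),
    (FSG X Y).Connected → (FSG X Y).diam ≤ C * (n + 1) ^ C) := by
  rintro ⟨C, hC⟩
  obtain ⟨j, hj⟩ := growth C
  obtain ⟨n, X, Y, h1, h2, h3⟩ := exists_example j
  have h4 := hC n X Y h2
  have h5 : C * (n + 1) ^ C ≤ C * (72 * (j + 1) ^ 2 + 1) ^ C :=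
    Nat.mul_le_mul_left _ (Nat.pow_le_pow_left (by omega) _)
  omega

end Pool.Agent.H919Z.FS
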